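import Pool.Agent.FLZ.FinX

/-!
# A sharp uniform character bound for `GL_n(q)`

The method of Q1: the numbers of homomorphisms are sums over the irreducible characters. For every element `x` of
`GL_n(q)` killed by a polynomial of degree `m`, in particular for the elements of order `m` and those of order `m` modulo
scalars, for all `q`, and `n` large: `|X(x)| ≤ (|C(x)| q^(-n^2/m))^(1/2) X(1)^(1/m + ε)`. The exponent `1/m` is best
possible for every `m` and every `q`.
-/

namespace Pool.Agent.Results.MP_5b5212_al.CharacterBound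

open Polynomial Matrix

/-- `X` is the character of an irreducible representation of `G` on some `ℂ ^ k` -/
def IsIrr {G : Type} [Group G] (X : G → ℂ) : Prop :=
  ∃ (k : ℕ) (ρ : Representation ℂ G (Fin k → ℂ)), ρ.IsIrreducible ∧ ρ.character = X

/-- the number of the `n × n` matrices that commute with `A` -/
noncomputable def cN {n : ℕ} {F : Type} [Field F] (A : Matrix (Fin n) (Fin n) F) : ℕ :=
  Nat.card {B : Matrix (Fin n) (Fin n) F // B * A = A * B}

/-- (1) For `m ≥ 2` and `ε > 0` there is `r` such that for all `n ≥ r`, all finite fields `F` (`q = |F|`), all irreducible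
characters `X` of `GL_n(F)`, and all `x` in `GL_n(F)` killed by a monic polynomial of degree `m`:
`|X(x)| ≤ (|C(x)| q^(-n^2/m))^(1/2) X(1)^(1/m + ε)`.
(2) The exponent is best possible: for `m ≥ 2` and `ε > 0` there is `r` such that for all `n ≥ r` divisible by `m` and all
finite fields `F` there are `x` in `GL_n(F)` with `x^m = 1`, `|C(x)| = q^(n^2/m)`, and an irreducible character `X` with
`X(1) ≠ 1` and `|X(x)| ≥ X(1)^(1/m - ε)`. -/
theorem result :
    (∀ m : ℕ, 2 ≤ m → ∀ ε : ℝ, 0 < ε → ∃ r : ℕ, ∀ n : ℕ, r ≤ n →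
      ∀ (F : Type) [Field F] [Finite F] (X : GL (Fin n) F → ℂ), IsIrr X →
      ∀ g : F[X], g.Monic → g.natDegree = m → ∀ x : GL (Fin n) F,
        aeval (x : Matrix (Fin n) (Fin n) F) g = 0 →
        ‖X x‖ ≤ ((cN (x : Matrix (Fin n) (Fin n) F) : ℝ) *
            (Nat.card F : ℝ) ^ (-((n : ℝ) ^ 2 / m))) ^ (1 / 2 : ℝ) * (X 1).re ^ (1 / (m : ℝ) + ε)) ∧
    (∀ m : ℕ, 2 ≤ m → ∀ ε : ℝ, 0 < ε → ∃ r : ℕ, ∀ n : ℕ, r ≤ n → m ∣ n →
      ∀ (F : Type) [Field F] [Finite F],
        ∃ x : GL (Fin n) F, x ^ m = 1 ∧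
          cN (x : Matrix (Fin n) (Fin n) F) = Nat.card F ^ (n ^ 2 / m) ∧
          ∃ X : GL (Fin n) F → ℂ, IsIrr X ∧ X 1 ≠ 1 ∧ (X 1).re ^ (1 / (m : ℝ) - ε) ≤ ‖X x‖) := by
  constructor
  · intro m hm ε hε
    obtain ⟨r, hr⟩ := FLZ.a_XMB1 m hm ε hε
    exact ⟨r, fun n hn F _ _ X hX g hg hgd x hx => hr n hn F X hX g hg hgd x hx⟩
  · intro m hm ε hε
    obtain ⟨r, hr⟩ := FLZ.a_SHD m hm ε hε
    refine ⟨r, fun n hn hmn F _ _ => ?_⟩
    classical
    have := Fintype.ofFinite F
    exact hr n hn hmn F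

end Pool.Agent.Results.MP_5b5212_al.CharacterBound
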