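import Pool.Agent.FLY.Fin

/-!
# Random homomorphisms of co-compact Fuchsian groups to `PSL_n(q)`, all `q`: number, and image in no geometric
maximal subgroup

All four classes of co-compact groups for which the question is open: oriented groups of genus `0` and `1`,
non-oriented groups of genus `1` and `2`.
-/

namespace Pool.Agent.Results.MP_5b5212_al.GeometricImage

open RSF

/-- all preimages in `SL_n(F)` of all elements of `H` have the property `Q` -/
def All {n : ℕ} {F : Type} [Field F] (H : Subgroup (PS n F))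
    (Q : Matrix (Fin n) (Fin n) F → Prop) : Prop :=
  ∀ g ∈ H, ∀ A : Matrix.SpecialLinearGroup (Fin n) F, mk A = g → Q A.1

/-- `M` permutes the subspaces `V i` -/
def P2 {n t : ℕ} {F : Type} [Field F] (V : Fin t → Submodule F (Fin n → F))
    (M : Matrix (Fin n) (Fin n) F) : Prop :=
  ∀ i, ∃ j, (V i).map (Matrix.toLin' M) = V j

/-- `M` normalizes `K` -/
def P3 {n : ℕ} {F : Type} [Field F] (K : Subalgebra F (Matrix (Fin n) (Fin n) F))
    (M : Matrix (Fin n) (Fin n) F) : Prop :=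
  ∀ x ∈ K, M * x * M⁻¹ ∈ K

/-- `P M P⁻¹` is a tensor product -/
def P4 {n a b : ℕ} {F : Type} [Field F] (e : Fin n ≃ Fin a × Fin b) (P : GL (Fin n) F)
    (M : Matrix (Fin n) (Fin n) F) : Prop :=
  ∃ (B : Matrix (Fin a) (Fin a) F) (C : Matrix (Fin b) (Fin b) F),
    P.1 * M * P.1⁻¹ = Matrix.of fun i j => B (e i).1 (e j).1 * C (e i).2 (e j).2

/-- `P M P⁻¹` is a scalar times a matrix over the subfield `K` -/
def P5 {n : ℕ} {F : Type} [Field F] (K : Subfield F) (P : GL (Fin n) F)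
    (M : Matrix (Fin n) (Fin n) F) : Prop :=
  ∃ c : F, c ≠ 0 ∧ ∀ i j, c * (P.1 * M * P.1⁻¹) i j ∈ K

/-- the monomial `∏ g_i ^ e_i` -/
noncomputable def mo {n s : ℕ} {F : Type} [Field F] (g : Fin s → GL (Fin n) F) (e : Fin s → ℕ) :
    Matrix (Fin n) (Fin n) F := (List.ofFn fun i => (g i).1 ^ e i).prod

/-- `M` normalizes the group generated by the `g i` and the scalars -/
def P6 {n s : ℕ} {F : Type} [Field F] (g : Fin s → GL (Fin n) F)
    (M : Matrix (Fin n) (Fin n) F) : Prop :=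
  ∀ i, ∃ (c : F) (e : Fin s → ℕ), M * (g i).1 = c • (mo g e * M)

/-- the tuples `g` that commute up to scalars, with scalar `g_i ^ r`, and generate the matrix ring -/
def I6 (F : Type) [Field F] (n r s : ℕ) : Type :=
  {g : Fin s → GL (Fin n) F // (∀ i, ∃ c : F, (g i).1 ^ r = c • (1 : Matrix (Fin n) (Fin n) F)) ∧
    (∀ i j, ∃ c : F, (g i).1 * (g j).1 = c • ((g j).1 * (g i).1)) ∧
    Submodule.span F (Set.range (mo g)) = ⊤}

/-- `P M P⁻¹` is a tensor product of `t` factors of size `a` times a permutation of the factors -/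
def P7 {n a t : ℕ} {F : Type} [Field F] (e : Fin n ≃ (Fin t → Fin a)) (P : GL (Fin n) F)
    (M : Matrix (Fin n) (Fin n) F) : Prop :=
  ∃ (B : Fin t → Matrix (Fin a) (Fin a) F) (π : Equiv.Perm (Fin t)),
    P.1 * M * P.1⁻¹ = Matrix.of fun i j => ∏ s, B s (e i s) (e j (π s))

/-- `M` preserves the form `J` up to a scalar -/
def P8 {n : ℕ} {F : Type} [Field F] (τ : F ≃+* F) (J M : Matrix (Fin n) (Fin n) F) : Prop :=
  ∃ c : F, M.transpose * J * M.map τ = c • J

/-- `J` is symmetric, skew, hermitian or skew hermitian (`τ ^ 2 = 1`, `ε = 1` or `ε = -1`) -/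
def Her {n : ℕ} {F : Type} [Field F] (τ : F ≃+* F) (ε : F) (J : Matrix (Fin n) (Fin n) F) : Prop :=
  (∀ x, τ (τ x) = x) ∧ (ε = 1 ∨ ε = -1) ∧ J.transpose = ε • J.map τ

/-- imprimitive: a decomposition of `F^n` in `t ≥ 2` nonzero subspaces is permuted -/
def C2 {n : ℕ} {F : Type} [Field F] (H : Subgroup (PS n F)) : Prop :=
  ∃ (t : ℕ) (V : Fin t → Submodule F (Fin n → F)), 2 ≤ t ∧ (∀ i, V i ≠ ⊥) ∧
    DirectSum.IsInternal V ∧ All H (P2 V)

/-- a field `K` of matrices larger than `F` is normalized -/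
def C3 {n : ℕ} {F : Type} [Field F] (H : Subgroup (PS n F)) : Prop :=
  ∃ K : Subalgebra F (Matrix (Fin n) (Fin n) F), K ≠ ⊥ ∧ IsField K ∧ All H (P3 K)

/-- a tensor decomposition is preserved -/
def C4 {n : ℕ} {F : Type} [Field F] (H : Subgroup (PS n F)) : Prop :=
  ∃ (a b : ℕ) (e : Fin n ≃ Fin a × Fin b) (P : GL (Fin n) F), 2 ≤ a ∧ 2 ≤ b ∧ All H (P4 e P)

/-- realizable over a proper subfield up to scalars -/
def C5 {n : ℕ} {F : Type} [Field F] (H : Subgroup (PS n F)) : Prop :=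
  ∃ (K : Subfield F) (P : GL (Fin n) F), K ≠ ⊤ ∧ All H (P5 K P)

/-- a group of symplectic type is normalized: generators of an absolutely irreducible group, abelian
of exponent `r` and order `r ^ s = n ^ 2` modulo scalars -/
def C6 {n : ℕ} {F : Type} [Field F] (H : Subgroup (PS n F)) : Prop :=
  ∃ (r s : ℕ) (g : I6 F n r s), 2 ≤ r ∧ r ^ s = n ^ 2 ∧ All H (P6 g.1)

/-- tensor induced -/
def C7 {n : ℕ} {F : Type} [Field F] (H : Subgroup (PS n F)) : Prop :=
  ∃ (a t : ℕ) (e : Fin n ≃ (Fin t → Fin a)) (P : GL (Fin n) F), 2 ≤ a ∧ 2 ≤ t ∧ All H (P7 e P)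

/-- a nonzero symmetric, skew, hermitian or skew hermitian form is preserved up to scalars -/
def C8 {n : ℕ} {F : Type} [Field F] (H : Subgroup (PS n F)) : Prop :=
  ∃ (τ : F ≃+* F) (ε : F) (J : Matrix (Fin n) (Fin n) F), Her τ ε J ∧ J ≠ 0 ∧ All H (P8 τ J)

/-- one of the geometric classes `C2`, …, `C8` of Aschbacher's theorem (`C1`: reducible) -/
def Asch {n : ℕ} {F : Type} [Field F] (H : Subgroup (PS n F)) : Prop :=
  C2 H ∨ C3 H ∨ C4 H ∨ C5 H ∨ C6 H ∨ C7 H ∨ C8 H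

/-- The statement for the group `Γ` with the periods `m`; `h = 0` for oriented groups of genus `0`, `h = 1` for
non-oriented groups of genus `1`, `h = 2` for oriented groups of genus `1` and non-oriented ones of genus `2`. -/
def St (h : ℕ) (Γ : Type) [Group Γ] (m : List ℕ) : Prop :=
  2 < sig m + h → ∀ θ : ℝ, m.length - sig m < θ * (m.length + h - 2) →
    ∃ (c : ℝ) (r : ℕ), 0 < c ∧ ∀ n, r ≤ n → ∀ (F : Type) [Field F] [Finite F],
      |(Nat.card (Γ →* PS n F) : ℝ) * (Nat.card (PS n F) : ℝ) ^ (1 - (h : ℤ)) /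
          (m.map fun k => (Nat.card {t : PS n F // t ^ k = 1} : ℝ)).prod - 1| ≤
        (Nat.card F : ℝ) ^ (-c * (n : ℝ)) ∧
      ∀ S : Set (Subgroup (PS n F)), (S.ncard : ℝ) ≤ (Nat.card F : ℝ) ^ (c * (n : ℝ) ^ 2) →
        (∀ M ∈ S, (Nat.card F : ℝ) ^ (θ * (n : ℝ) ^ 2) ≤ M.index) →
        1 - (Nat.card F : ℝ) ^ (-c * (n : ℝ)) ≤ prob Γ (PS n F)
          (fun ρ => Irr ρ.range ∧ (∀ M ∈ S, ¬ InConj ρ.range M) ∧
            ((∃ k ∈ m, 1 / (k : ℝ) < sig m + h - 2) → ¬ Asch ρ.range))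

/-- The theorem for the four classes of groups. -/
theorem result : ∀ m : List ℕ, (∀ k ∈ m, 2 ≤ k) →
    St 0 (OGroup 0 m) m ∧ St 1 (NGroup 1 m) m ∧ St 2 (OGroup 1 m) m ∧ St 2 (NGroup 2 m) m :=
  FLY.a_MainG

end Pool.Agent.Results.MP_5b5212_al.GeometricImage
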