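import Pool.Agent.FLX.Fin

/-!
# Random homomorphisms of co-compact Fuchsian groups to `PSL_n(q)` are surjective

Q1 for the family `PSL_n(q)`, `n ≥ r`, all `q`: for the oriented groups of genus `1` and the non-oriented groups of
genus `2` with at least two periods, not `(2, 2)`, and for the groups of the other two open classes with sufficiently
many periods.
-/

namespace Pool.Agent.Results.MP_5b5212_al.SurjectiveManyPeriods

open RSF

/-- Let `m₁`, `m₂`, `m₃` be lists of periods `k ≥ 2` and `∑ (1 - 1/k) > 1` for the periods of `m₁` (at least two periods,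
not `(2, 2)`). There is `r` such that the random homomorphism to `PSL_n(q)`, `n ≥ r`, is surjective with probability
tending to `1` as `|PSL_n(q)|` tends to infinity, for the oriented group of genus `1` and the non-oriented group of
genus `2` with periods `m₁`, for the non-oriented group of genus `1` with periods `m₁, m₂` (if `∑ (1 - 1/k) > 1` for
the periods of `m₂`, too), and for the oriented group of genus `0` with periods `m₁, m₂, m₃` (if `∑ (1 - 1/k) > 1` for
the periods of `m₃`, too). -/
theorem result :
    ∀ m₁ m₂ m₃ : List ℕ, (∀ k ∈ m₁ ++ m₂ ++ m₃, 2 ≤ k) → 1 < sig m₁ →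
      ∃ r : ℕ, ∀ ε : ℝ, 0 < ε → ∃ N : ℕ,
      ∀ n, r ≤ n → ∀ (F : Type) [Field F] [Finite F], N ≤ Nat.card (PS n F) →
        1 - ε ≤ prob (OGroup 1 m₁) (PS n F) (fun ρ => Function.Surjective ρ) ∧
        1 - ε ≤ prob (NGroup 2 m₁) (PS n F) (fun ρ => Function.Surjective ρ) ∧
        (1 < sig m₂ →
          1 - ε ≤ prob (NGroup 1 (m₁ ++ m₂)) (PS n F) (fun ρ => Function.Surjective ρ) ∧
          (1 < sig m₃ →
            1 - ε ≤ prob (OGroup 0 (m₁ ++ m₂ ++ m₃)) (PS n F) (fun ρ => Function.Surjective ρ))) :=
  FLX.a_MainV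

end Pool.Agent.Results.MP_5b5212_al.SurjectiveManyPeriods
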