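import Pool.Agent.RSF.Fin1

/-!
# Transfer from co-compact groups of genus 1 to free products of cyclic groups, all finite groups
-/

namespace Pool.Agent.Results.MP_5b5212_al.TransferParity

open RSF

/-- Lists of periods in which every value occurs an even number of times, every finite group `G` and every
set `E` of tuples: for a random homomorphism `ρ` of the oriented co-compact group of genus `1`
(non-oriented of genus `2`) to `G`, the probability that the tuple of the `ρ x_j` is in `E` is at
most the number of conjugacy classes of `G` times the probability for independent uniform `t_j` with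
`t_j ^ m_j = 1`. -/
theorem result :
    ∀ m : List ℕ, (∀ k, Even (m.count k)) → ∀ (G : Type) [Group G] [Finite G]
      (E : (Fin m.length → G) → Prop),
      prob (OGroup 1 m) G (fun ρ => E fun j => ρ (ox 1 m j)) ≤
        Nat.card (ConjClasses G) *
          ((Nat.card {t : Fin m.length → G // (∀ j, t j ^ m.get j = 1) ∧ E t} : ℝ) /
            Nat.card {t : Fin m.length → G // ∀ j, t j ^ m.get j = 1}) ∧
      prob (NGroup 2 m) G (fun ρ => E fun j => ρ (nx 2 m j)) ≤
        Nat.card (ConjClasses G) *
          ((Nat.card {t : Fin m.length → G // (∀ j, t j ^ m.get j = 1) ∧ E t} : ℝ) /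
            Nat.card {t : Fin m.length → G // ∀ j, t j ^ m.get j = 1}) :=
  f_MainC

end Pool.Agent.Results.MP_5b5212_al.TransferParity
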